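import Pool.Agent.Work.MP_10b6e9_ag.Final

set_option autoImplicit false

open Pool.Agent.Work.MP_10b6e9_ag

namespace Pool.Agent.Results.MP_10b6e9_ag.Bound

/-- Question 1 for an arbitrary Hermitian matrix of rank five, counting projective points. -/
theorem result (K : Type) [Field K] [Fintype K] (q d : ℕ) (hK : Fintype.card K = q ^ 2)
    (hd : d ≤ q) (A : Matrix (Fin 5) (Fin 5) K)
    (hA : A.transpose = A.map (fun a => a ^ q)) (hr : A.rank = 5)
    (F : MvPolynomial (Fin 5) K) (hF0 : F ≠ 0) (hF : F.IsHomogeneous d) :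
    numPts q A F ≤ d * (q ^ 5 + q ^ 2) + q ^ 3 + 1 :=
  bound_final hK hd hA hr hF0 hF

end Pool.Agent.Results.MP_10b6e9_ag.Bound
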