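import Pool.Agent.Work.MP_10b6e9_ag.Final

set_option autoImplicit false

open Pool.Agent.Work.MP_10b6e9_ag

namespace Pool.Agent.Results.MP_10b6e9_ag.Equality

/-- Question 2: the number of rational points common to a threefold of degree `d ≤ q` and a
nondegenerate Hermitian threefold equals `d (q^5 + q^2) + q^3 + 1` exactly when the threefold is,
over the algebraic closure, the union of `d` distinct non-tangent rational hyperplanes through a
common rational plane on which the Hermitian form is nondegenerate. -/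
theorem result (K : Type) [Field K] [Fintype K] (q d : ℕ) (hK : Fintype.card K = q ^ 2)
    (hd1 : 1 ≤ d) (hd : d ≤ q) (A : Matrix (Fin 5) (Fin 5) K)
    (hA : A.transpose = A.map (fun a => a ^ q)) (hr : A.rank = 5)
    (F : MvPolynomial (Fin 5) K) (hF0 : F ≠ 0) (hF : F.IsHomogeneous d) :
    numPts q A F = d * (q ^ 5 + q ^ 2) + q ^ 3 + 1 ↔
      ∃ (l : Fin d → Fin 5 → K) (W : Submodule K (Fin 5 → K)),
        (∀ i, l i ≠ 0) ∧ (Function.Injective fun i => hyp (l i)) ∧
        (∀ i, ¬ IsTangent q A (hyp (l i))) ∧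
        Module.finrank K W = 3 ∧ NondegOn q A W ∧ (∀ i, (W : Set (Fin 5 → K)) ⊆ hyp (l i)) ∧
        ∀ x : Fin 5 → AlgebraicClosure K, MvPolynomial.aeval x F = 0 ↔
          ∃ i, ∑ j, algebraMap K (AlgebraicClosure K) (l i j) * x j = 0 :=
  equality_final hK hd1 hd hA hr hF0 hF

end Pool.Agent.Results.MP_10b6e9_ag.Equality
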